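import Mathlib
import Pool.Agent.H.MP_f51a03_co.A

namespace Pool.Agent.Results.MP_f51a03_co.Full

open Pool.Agent.H.MP_f51a03_co

/-- `G` is a total weak unit interval graph: for every labeling `ℓ` of its edges
(`true` = near, `false` = far) there are `I : V → ℝ` and `t > 0` such that an edge `uv` is near
exactly when `|I u - I v| ≤ t`. -/
def IsTotalWUI {V : Type} (G : SimpleGraph V) : Prop :=
  ∀ ℓ : G.edgeSet → Bool, ∃ (I : V → ℝ) (t : ℝ), 0 < t ∧
    ∀ (u v : V) (h : G.Adj u v), |I u - I v| ≤ t ↔ ℓ ⟨s(u, v), h⟩ = true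

/-- The graph on `Fin 8` with edges 03 06 07 12 15 17 24 26 34 35 45 46 57 67. -/
def G0 : SimpleGraph (Fin 8) :=
  SimpleGraph.fromRel fun u v => (u.val, v.val) ∈
    ([(0, 3), (0, 6), (0, 7), (1, 2), (1, 5), (1, 7), (2, 4), (2, 6), (3, 4), (3, 5), (4, 5),
      (4, 6), (5, 7), (6, 7)] : List (ℕ × ℕ))

instance : DecidableRel G0.Adj := fun u v => by
  unfold G0; rw [SimpleGraph.fromRel_adj]; infer_instance

lemma adj_e : ∀ e : Fin 14, G0.Adj (eu e) (ev e) := by decide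

lemma adj_cases : ∀ u v : Fin 8, G0.Adj u v →
    ∃ e : Fin 14, (u = eu e ∧ v = ev e) ∨ (v = eu e ∧ u = ev e) := by decide

theorem result :
    ∃ (n : ℕ) (G : SimpleGraph (Fin n)), 2 ≤ n ∧ IsTotalWUI G ∧ G.edgeSet.ncard = 2 * n - 2 := by
  refine ⟨8, G0, by norm_num, ?_, ?_⟩
  · intro ℓ
    obtain ⟨w, hw⟩ := exists_word fun e => ℓ ⟨s(eu e, ev e), adj_e e⟩
    refine ⟨fun u => (pos w u.val : ℕ), 2, by norm_num, fun u v h => ?_⟩
    obtain ⟨e, ⟨rfl, rfl⟩ | ⟨rfl, rfl⟩⟩ := adj_cases u v h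
    · rw [near_iff, hw]
    · rw [abs_sub_comm, near_iff, hw]
      simp only [Sym2.eq_swap]
  · rw [← SimpleGraph.coe_edgeFinset, Set.ncard_coe_finset]
    have h := G0.sum_degrees_eq_twice_card_edges
    have h2 : ∑ v, G0.degree v = 28 := by decide
    omega

end Pool.Agent.Results.MP_f51a03_co.Full
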